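import Mathlib

/-!
Progressions whose first terms are given by a tree of labels in base `b`.

The node number `q < b ^ i` of level `i` of the tree stands for the first `i` digits of the numbers
`r` with `⌊b ^ i r⌋ = q`; its children are the nodes `b q + d`, `0 ≤ d < b`, of level `i + 1`. The
label of the node `q` of level `i + 1` is `lab i q`.
-/

set_option autoImplicit false

namespace Pool.Agent.U685.KT

open Finset Polynomial

/-- the first term `∑ i, lab i ⌊b ^ (i + 1) r⌋ / b ^ (i + 1)` given by the labels -/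
noncomputable def first (b : ℕ) (lab : ℕ → ℕ → ℤ) (r : ℝ) : ℝ :=
  ∑' i : ℕ, (lab i ⌊(b : ℝ) ^ (i + 1) * r⌋₊ : ℝ) / (b : ℝ) ^ (i + 1)

/-- For every node `p` of every level `i`, every line of slope `-j`, `j < k`, contains at most `m` of
the `b` points (digit `d`, label of the child `b p + d`). -/
def Thin (k m b : ℕ) (lab : ℕ → ℕ → ℤ) : Prop :=
  ∀ (i p j : ℕ) (u : ℤ), j < k →
    ((range b).filter fun d => lab i (b * p + d) + (j : ℤ) * (d : ℤ) = u).card ≤ m

/-- `S` is a cover of `B` by sets of diameter at most `δ` -/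
def Cov (B : Set ℝ) (δ : ℝ) (S : Finset (Set ℝ)) : Prop :=
  (∀ Y ∈ S, ∀ x ∈ Y, ∀ y ∈ Y, |x - y| ≤ δ) ∧ ∀ x ∈ B, ∃ Y ∈ S, x ∈ Y

/-- The children of the node `w` of level `i` have the labels `f(d) mod p`, `f = f i w` a polynomial
modulo `p`, `d` the digit of the child. -/
noncomputable def polyLab (b p : ℕ) [Fact p.Prime] (f : ℕ → ℕ → (ZMod p)[X]) (i q : ℕ) : ℤ :=
  (((f i (q / b)).eval ((q % b : ℕ) : ZMod p)).val : ℤ)

end Pool.Agent.U685.KT
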