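import Mathlib
import Pool.Agent.U685.LM.Final
import Pool.Agent.U685.KT.Defs

/-!
Words of digits and labels, and their values in base `b`.
-/

set_option autoImplicit false

namespace Pool.Agent.U685.KT

open Finset Pool.Agent.U685.LM

/-- the pairs (label, digit) on the path to the node number `q` of level `n` -/
def word (b : ℕ) (lab : ℕ → ℕ → ℤ) (n q : ℕ) : Fin n → ℤ × ℤ :=
  fun i => (lab i.1 (q / b ^ (n - 1 - i.1)), ((q / b ^ (n - 1 - i.1) % b : ℕ) : ℤ))

lemma div_step (b q s : ℕ) : q / b ^ s = b * (q / b ^ (s + 1)) + q / b ^ s % b := by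
  have h : q / b ^ (s + 1) = q / b ^ s / b := by rw [pow_succ, Nat.div_div_eq_div_mul]
  rw [h]
  exact (Nat.div_add_mod _ _).symm

lemma agree {b n q q' : ℕ} {lab : ℕ → ℕ → ℤ} (hq : q < b ^ n) (hq' : q' < b ^ n) (i : ℕ)
    (hi : i ≤ n) (h : ∀ j : Fin n, j.1 < i → word b lab n q j = word b lab n q' j) :
    q / b ^ (n - i) = q' / b ^ (n - i) := by
  induction i with
  | zero =>
    rw [Nat.sub_zero, Nat.div_eq_of_lt hq, Nat.div_eq_of_lt hq']
  | succ i ih =>
    have h1 := ih (by omega) (fun j hj => h j (by omega))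
    have h2 := h ⟨i, by omega⟩ (by simp)
    have e : n - 1 - i = n - (i + 1) := by omega
    have e2 : n - i = n - (i + 1) + 1 := by omega
    unfold word at h2
    simp only [e, Prod.mk.injEq] at h2
    have h3 : q / b ^ (n - (i + 1)) % b = q' / b ^ (n - (i + 1)) % b := by exact_mod_cast h2.2
    rw [div_step b q, div_step b q', ← e2, h1, h3]

lemma word_inj {b n : ℕ} (lab : ℕ → ℕ → ℤ) :
    Set.InjOn (word b lab n) {q : ℕ | q < b ^ n} := by
  intro q hq q' hq' h
  have := agree (lab := lab) hq hq' n le_rfl (fun j _ => by rw [h])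
  simpa using this

lemma branch {k m b n : ℕ} (hb : 0 < b) {lab : ℕ → ℕ → ℤ} (hT : Thin k m b lab) (Q : Finset ℕ)
    (hQ : ∀ q ∈ Q, q < b ^ n) :
    Branch m ((range k).image fun j : ℕ => (j : ℚ)) (Q.image (word b lab n)) := by
  classical
  intro a ha i r hr
  obtain ⟨q, hq, rfl⟩ := mem_image.1 ha
  obtain ⟨j, hj, rfl⟩ := mem_image.1 hr
  have hj := mem_range.1 hj
  obtain ⟨p, hp⟩ : ∃ p, p = q / b ^ (n - i.1) := ⟨_, rfl⟩
  obtain ⟨u, hu⟩ : ∃ u : ℤ, u = (word b lab n q i).1 + (j : ℤ) * (word b lab n q i).2 := ⟨_, rfl⟩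
  refine le_trans ?_ (hT i.1 p j u hj)
  refine le_trans (card_le_card (t := ((range b).filter fun d =>
    lab i.1 (b * p + d) + (j : ℤ) * (d : ℤ) = u).image fun d => (lab i.1 (b * p + d), (d : ℤ))) ?_)
    card_image_le
  intro v hv
  obtain ⟨hv1, hv2⟩ := mem_filter.1 hv
  obtain ⟨c, hc, rfl⟩ := mem_image.1 hv1
  obtain ⟨hc1, hc2⟩ := mem_filter.1 hc
  obtain ⟨q', hq', rfl⟩ := mem_image.1 hc1
  have hag := agree (hQ q' hq') (hQ q hq) i.1 i.2.le (fun l hl => hc2 l hl)
  obtain ⟨d, hd⟩ : ∃ d, d = q' / b ^ (n - 1 - i.1) % b := ⟨_, rfl⟩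
  have hin : q' / b ^ (n - 1 - i.1) = b * p + d := by
    have e2 : n - 1 - i.1 + 1 = n - i.1 := by have := i.2; omega
    have := div_step b q' (n - 1 - i.1)
    rw [e2, hag, ← hp, ← hd] at this
    exact this
  have hw : word b lab n q' i = (lab i.1 (b * p + d), (d : ℤ)) := by
    unfold word
    rw [← hd, hin]
  refine mem_image.2 ⟨d, mem_filter.2 ⟨mem_range.2 ?_, ?_⟩, hw.symm⟩
  · rw [hd]; exact Nat.mod_lt _ hb
  · rw [hw] at hv2
    unfold pr at hv2
    rw [hu]
    exact_mod_cast hv2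

/-! ### the number of words with a given value -/

/-- the value of a word in base `b` -/
def val {n : ℕ} (b : ℕ) (z : Fin n → ℤ) : ℤ := ∑ i, z i * (b : ℤ) ^ (n - 1 - i.1)

lemma val_succ {n : ℕ} (b : ℕ) (z : Fin (n + 1) → ℤ) :
    val b z = (b : ℤ) * val b (Fin.init z) + z (Fin.last n) := by
  unfold val
  rw [Fin.sum_univ_castSucc]
  congr 1
  · rw [mul_sum]
    refine sum_congr rfl fun i _ => ?_
    have : n + 1 - 1 - (Fin.castSucc i).1 = (n - 1 - i.1) + 1 := by
      have := i.2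
      simp only [Fin.val_castSucc]
      omega
    rw [this, pow_succ]
    unfold Fin.init
    ring
  · simp

lemma class_card {b Z : ℕ} (hb : 0 < b) (e : ℤ) (C : Finset ℤ)
    (hC : ∀ c ∈ C, |c| ≤ Z ∧ (b : ℤ) ∣ e - c) : C.card ≤ 2 * Z / b + 1 := by
  have hb' : (0 : ℤ) < b := by exact_mod_cast hb
  rw [← card_range (2 * Z / b + 1)]
  apply card_le_card_of_injOn (fun c : ℤ => ((c + (Z : ℤ)) / (b : ℤ)).toNat)
  · intro c hc
    obtain ⟨h1, -⟩ := hC c hc
    obtain ⟨h2, h3⟩ := abs_le.1 h1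
    simp only [coe_range, Set.mem_Iio]
    have h4 : (c + Z) / b ≤ (2 * Z) / b := Int.ediv_le_ediv hb' (by linarith)
    have h5 : ((2 * Z / b : ℕ) : ℤ) = 2 * Z / b := by push_cast; rfl
    have h6 : 0 ≤ (c + Z) / b := Int.ediv_nonneg (by linarith) hb'.le
    zify
    rw [Int.toNat_of_nonneg h6]
    push_cast
    omega
  · intro c hc c' hc' h
    obtain ⟨h1, h1'⟩ := hC c hc
    obtain ⟨h2, h2'⟩ := hC c' hc'
    have a1 : 0 ≤ (c + Z) / b := Int.ediv_nonneg (by linarith [(abs_le.1 h1).1]) hb'.le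
    have a2 : 0 ≤ (c' + Z) / b := Int.ediv_nonneg (by linarith [(abs_le.1 h2).1]) hb'.le
    have h3 : (c + Z) / b = (c' + Z) / b := by
      have := congrArg (fun x : ℕ => (x : ℤ)) h
      simpa [Int.toNat_of_nonneg a1, Int.toNat_of_nonneg a2] using this
    have h4 : (b : ℤ) ∣ c - c' := by
      have := dvd_sub h2' h1'
      have e1 : e - c' - (e - c) = c - c' := by ring
      rwa [e1] at this
    have h5 : (c + Z) % b = (c' + Z) % b := by
      rw [Int.emod_eq_emod_iff_emod_sub_eq_zero]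
      apply Int.emod_eq_zero_of_dvd
      have e1 : c + Z - (c' + Z) = c - c' := by ring
      rwa [e1]
    have h6 := Int.mul_ediv_add_emod (c + Z) b
    have h7 := Int.mul_ediv_add_emod (c' + Z) b
    rw [h3, h5] at h6
    linarith

lemma fibre {b Z : ℕ} (hb : 0 < b) (n : ℕ) : ∀ (e : ℤ) (T : Finset (Fin n → ℤ)),
    (∀ z ∈ T, (∀ i, |z i| ≤ Z) ∧ val b z = e) → T.card ≤ (2 * Z / b + 1) ^ n := by
  classical
  induction n with
  | zero =>
    intro e T _
    rw [pow_zero]
    exact Finset.card_le_one.2 fun z _ w _ => funext fun i => i.elim0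
  | succ n ih =>
    intro e T hT
    rw [pow_succ]
    refine (card_le_mul_card_image (f := fun z : Fin (n + 1) → ℤ => z (Fin.last n)) T
      ((2 * Z / b + 1) ^ n) ?_).trans (Nat.mul_le_mul le_rfl ?_)
    · intro c hc
      obtain ⟨z₀, hz₀, hz₀c⟩ := mem_image.1 hc
      have hinj : Set.InjOn (Fin.init : (Fin (n + 1) → ℤ) → (Fin n → ℤ))
          (T.filter fun z => z (Fin.last n) = c : Finset (Fin (n + 1) → ℤ)) := by
        intro z hz w hw h
        have hz1 := (mem_filter.1 (mem_coe.1 hz)).2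
        have hw1 := (mem_filter.1 (mem_coe.1 hw)).2
        rw [← Fin.snoc_init_self z, ← Fin.snoc_init_self w, h, hz1, hw1]
      rw [← card_image_of_injOn hinj]
      refine ih ((e - c) / b) _ ?_
      intro y hy
      obtain ⟨z, hz, rfl⟩ := mem_image.1 hy
      obtain ⟨hz1, hz2⟩ := mem_filter.1 hz
      obtain ⟨h1, h2⟩ := hT z hz1
      refine ⟨fun i => h1 _, ?_⟩
      rw [val_succ, hz2] at h2
      have : e - c = (b : ℤ) * val b (Fin.init z) := by linarith
      rw [this, Int.mul_ediv_cancel_left _ (by exact_mod_cast hb.ne')]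
    · refine class_card hb e _ ?_
      intro c hc
      obtain ⟨z, hz, rfl⟩ := mem_image.1 hc
      obtain ⟨h1, h2⟩ := hT z hz
      refine ⟨h1 _, ?_⟩
      rw [val_succ] at h2
      exact ⟨val b (Fin.init z), by linarith⟩

lemma window {b Z : ℕ} (hb : 0 < b) (n c : ℕ) (y : ℤ) (T : Finset (Fin n → ℤ))
    (hT : ∀ z ∈ T, (∀ i, |z i| ≤ Z) ∧ |val b z - y| ≤ c) :
    T.card ≤ (2 * Z / b + 1) ^ n * (2 * c + 1) := by
  classical
  refine (card_le_mul_card_image (f := fun z : Fin n → ℤ => val b z) T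
      ((2 * Z / b + 1) ^ n) ?_).trans (Nat.mul_le_mul le_rfl ?_)
  · intro e _
    refine fibre hb n e _ ?_
    intro z hz
    obtain ⟨h1, h2⟩ := mem_filter.1 hz
    exact ⟨(hT z h1).1, h2⟩
  · have : (Icc (y - c) (y + c)).card = 2 * c + 1 := by
      rw [Int.card_Icc]
      omega
    rw [← this]
    refine card_le_card fun e he => ?_
    obtain ⟨z, hz, rfl⟩ := mem_image.1 he
    have h1 := abs_le.1 (hT z hz).2
    rw [mem_Icc]
    constructor <;> linarith

end Pool.Agent.U685.KT
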