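import Mathlib
import Pool.Agent.U685.KT.Cover

/-!
One scale.
-/

set_option autoImplicit false

namespace Pool.Agent.U685.KT

open Finset Pool.Agent.U685.LM

lemma proj_card {b L k n : ℕ} (hb : 2 ≤ b) {lab : ℕ → ℕ → ℤ} (hL : ∀ i q, |lab i q| ≤ L)
    {R B : Set ℝ} (hR : ∀ r ∈ R, 0 ≤ r ∧ r < 1)
    (hB : ∀ r ∈ R, ∀ j : ℕ, j < k → first b lab r + j * r ∈ B) {S : Finset (Set ℝ)}
    (hS : Cov B (1 / (b : ℝ) ^ n) S) {Q : Finset ℕ}
    (hQ : ∀ q ∈ Q, ∃ r ∈ R, ⌊(b : ℝ) ^ n * r⌋₊ = q) {j : ℕ} (hj : j < k) :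
    (projD (j : ℚ) (Q.image (word b lab n))).card ≤
      (2 * (L + k * b) / b + 1) ^ n * (2 * (2 * (L + k) + 1) + 1) * S.card := by
  classical
  have hb1 : (2 : ℝ) ≤ b := by exact_mod_cast hb
  have hbn : (0 : ℝ) < (b : ℝ) ^ n := by positivity
  have h0 : projD (j : ℚ) (Q.image (word b lab n)) =
      (Q.image (zz b lab n j)).image (fun z i => (z i : ℚ)) := by
    unfold projD
    rw [image_image, image_image]
    refine image_congr fun q _ => ?_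
    funext i
    simp only [Function.comp_apply, pr, zz]
    push_cast
    ring
  rw [h0]
  refine card_image_le.trans ?_
  -- a node, a difference and a member of the cover for each word
  have hch : ∀ z : Fin n → ℤ, ∃ (q : ℕ) (r : ℝ) (Y : Set ℝ), z ∈ Q.image (zz b lab n j) →
      q < b ^ n ∧ r ∈ R ∧ ⌊(b : ℝ) ^ n * r⌋₊ = q ∧ zz b lab n j q = z ∧ Y ∈ S ∧
        first b lab r + j * r ∈ Y := by
    intro z
    by_cases hz : z ∈ Q.image (zz b lab n j)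
    · obtain ⟨q, hq, hqz⟩ := mem_image.1 hz
      obtain ⟨r, hr, hrq⟩ := hQ q hq
      obtain ⟨Y, hY, hxY⟩ := hS.2 _ (hB r hr j hj)
      have := (approx hb hL (hR r hr).1 (hR r hr).2 n j).1
      rw [hrq] at this
      exact ⟨q, r, Y, fun _ => ⟨this, hr, hrq, hqz, hY, hxY⟩⟩
    · exact ⟨0, 0, ∅, fun h => absurd h hz⟩
  choose q r Y hqrY using hch
  refine card_le_mul_card_image_of_maps_to (f := Y) (fun z hz => (hqrY z hz).2.2.2.2.1) _ ?_
  intro Y₀ _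
  rcases ((Q.image (zz b lab n j)).filter fun z => Y z = Y₀).eq_empty_or_nonempty with he | ⟨z₀, hz₀⟩
  · rw [he]; simp
  obtain ⟨hz₀1, hz₀2⟩ := mem_filter.1 hz₀
  refine window (by omega) n (2 * (L + k) + 1) (val b z₀) _ ?_
  intro z hz
  obtain ⟨hz1, hz2⟩ := mem_filter.1 hz
  have hq := hqrY z hz1
  have hq₀ := hqrY z₀ hz₀1
  constructor
  · intro i
    rw [← hq.2.2.2.1]
    unfold zz word
    refine (abs_add_le _ _).trans ?_
    have h1 := hL i.1 (q z / b ^ (n - 1 - i.1))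
    have h2 : q z / b ^ (n - 1 - i.1) % b < b := Nat.mod_lt _ (by omega)
    have h3 : |(j : ℤ) * ((q z / b ^ (n - 1 - i.1) % b : ℕ) : ℤ)| ≤ (k : ℤ) * b := by
      rw [abs_of_nonneg (by positivity)]
      have a1 : ((q z / b ^ (n - 1 - i.1) % b : ℕ) : ℤ) ≤ b := by exact_mod_cast h2.le
      have a2 : (j : ℤ) ≤ k := by exact_mod_cast hj.le
      exact mul_le_mul a2 a1 (by positivity) (by positivity)
    push_cast at h3 ⊢
    linarith
  · have a := (approx hb hL (hR _ hq.2.1).1 (hR _ hq.2.1).2 n j).2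
    have a₀ := (approx hb hL (hR _ hq₀.2.1).1 (hR _ hq₀.2.1).2 n j).2
    rw [hq.2.2.1, hq.2.2.2.1] at a
    rw [hq₀.2.2.1, hq₀.2.2.2.1] at a₀
    have hd : |first b lab (r z) + j * r z - (first b lab (r z₀) + j * r z₀)| ≤
        1 / (b : ℝ) ^ n := by
      refine hS.1 (Y z) hq.2.2.2.2.1 _ hq.2.2.2.2.2 _ ?_
      rw [hz2, ← hz₀2]
      exact hq₀.2.2.2.2.2
    obtain ⟨x, hx⟩ : ∃ x, x = first b lab (r z) + j * r z := ⟨_, rfl⟩
    obtain ⟨x₀, hx₀⟩ : ∃ x, x = first b lab (r z₀) + j * r z₀ := ⟨_, rfl⟩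
    rw [← hx] at a hd
    rw [← hx₀] at a₀ hd
    have hd' : |(b : ℝ) ^ n * x - (b : ℝ) ^ n * x₀| ≤ 1 := by
      rw [← mul_sub, abs_mul, abs_of_pos hbn]
      have := mul_le_mul_of_nonneg_left hd hbn.le
      rwa [mul_one_div_cancel hbn.ne'] at this
    have hjk : (j : ℝ) ≤ k := by exact_mod_cast hj.le
    have : |((val b z - val b z₀ : ℤ) : ℝ)| ≤ ((2 * (L + k) + 1 : ℕ) : ℝ) := by
      push_cast
      have b1 := abs_le.1 a
      have b2 := abs_le.1 a₀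
      have b3 := abs_le.1 hd'
      rw [abs_le]
      constructor <;> linarith [b1.1, b1.2, b2.1, b2.2, b3.1, b3.2]
    exact_mod_cast this

/-- one scale -/
theorem scale {ε : ℝ} (hε : 0 < ε) (hε1 : ε ≤ 1) {m : ℕ} (hm : 1 ≤ m) {b L k n : ℕ} (hb : 2 ≤ b)
    (hk : Enough ε m k) {lab : ℕ → ℕ → ℤ} (hL : ∀ i q, |lab i q| ≤ L) (hT : Thin k m b lab)
    {R B : Set ℝ} (hR : ∀ r ∈ R, 0 ≤ r ∧ r < 1)
    (hB : ∀ r ∈ R, ∀ j : ℕ, j < k → first b lab r + j * r ∈ B) {S : Finset (Set ℝ)}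
    (hS : Cov B (1 / (b : ℝ) ^ n) S) {Q : Finset ℕ}
    (hQ : ∀ q ∈ Q, ∃ r ∈ R, ⌊(b : ℝ) ^ n * r⌋₊ = q) :
    (Q.card : ℝ) ≤ (((2 * (L + k * b) / b + 1) ^ n * (2 * (2 * (L + k) + 1) + 1) * S.card : ℕ) : ℝ)
      ^ (1 + ε) := by
  classical
  have hQ' : ∀ q ∈ Q, q < b ^ n := by
    intro q hq
    obtain ⟨r, hr, rfl⟩ := hQ q hq
    exact (approx hb hL (hR r hr).1 (hR r hr).2 n 0).1
  have hSc : ((range k).image fun j : ℕ => (j : ℚ)).card = k := by
    rw [card_image_of_injective _ Nat.cast_injective, card_range]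
  have h1 := explicit ε hε hε1 m hm ((range k).image fun j : ℕ => (j : ℚ)) (by rw [hSc]; exact hk) n
    (Q.image (word b lab n)) (branch (by omega) hT Q hQ')
  rw [card_image_of_injOn (fun q hq q' hq' h => word_inj lab (hQ' q hq) (hQ' q' hq') h)] at h1
  refine h1.trans (Real.rpow_le_rpow (Nat.cast_nonneg _) ?_ (by linarith))
  refine Nat.cast_le.2 (Finset.sup_le fun r hr => ?_)
  obtain ⟨j, hj, rfl⟩ := mem_image.1 hr
  exact proj_card hb hL hR hB hS hQ (mem_range.1 hj)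

end Pool.Agent.U685.KT
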