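import Mathlib
import Pool.Agent.U685.KT.Scale

/-!
All scales.
-/

set_option autoImplicit false

namespace Pool.Agent.U685.KT

open Finset Pool.Agent.U685.LM MeasureTheory

lemma exists_enough (ε : ℝ) (m : ℕ) : ∃ k : ℕ, 1 ≤ k ∧ Enough ε m k := by
  obtain ⟨k, hk⟩ := exists_nat_ge (max ((m : ℝ) ^ (8 / ε)) (100 / ε ^ 2))
  refine ⟨max k 1, le_max_right _ _, ?_, ?_⟩
  · refine (le_max_left _ _).trans (hk.trans ?_)
    exact_mod_cast le_max_left k 1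
  · refine (le_max_right _ _).trans (hk.trans ?_)
    exact_mod_cast le_max_left k 1

open Classical in
/-- the nodes of level `n` that meet `R` -/
noncomputable def cel (b n : ℕ) (R : Set ℝ) : Finset ℕ :=
  (range (b ^ n)).filter fun q => ∃ r ∈ R, ⌊(b : ℝ) ^ n * r⌋₊ = q

lemma floor_lt {b : ℕ} (hb : 2 ≤ b) {r : ℝ} (hr : 0 ≤ r) (hr1 : r < 1) (n : ℕ) :
    ⌊(b : ℝ) ^ n * r⌋₊ < b ^ n := by
  have hb1 : (2 : ℝ) ≤ b := by exact_mod_cast hb
  have hbn : (0 : ℝ) < (b : ℝ) ^ n := by positivity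
  rw [Nat.floor_lt (by positivity)]
  push_cast
  nlinarith

lemma cel_succ {b : ℕ} (hb : 2 ≤ b) (n : ℕ) {R : Set ℝ} (hR : ∀ r ∈ R, 0 ≤ r ∧ r < 1) :
    (cel b (n + 1) R).card ≤ b * (cel b n R).card := by
  classical
  refine card_le_mul_card_image_of_maps_to (f := fun q => q / b) ?_ _ ?_
  · intro q hq
    obtain ⟨hq1, r, hr, hrq⟩ := mem_filter.1 hq
    have h1 : ⌊(b : ℝ) ^ n * r⌋₊ = q / b := by
      have e : (b : ℝ) ^ n * r = ((b : ℝ) ^ (n + 1) * r) / (b : ℕ) := by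
        have : (b : ℝ) ≠ 0 := by
          have : (2 : ℝ) ≤ b := by exact_mod_cast hb
          linarith
        rw [pow_succ]
        field_simp
      rw [e, Nat.floor_div_natCast, hrq]
    refine mem_filter.2 ⟨mem_range.2 ?_, r, hr, h1⟩
    rw [← h1]
    exact floor_lt hb (hR r hr).1 (hR r hr).2 n
  · intro p _
    have : (Ico (b * p) (b * p + b)).card = b := by simp
    conv_rhs => rw [← this]
    refine card_le_card fun q hq => ?_
    have h := (mem_filter.1 hq).2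
    rw [mem_Ico]
    have h1 := Nat.div_add_mod q b
    have h2 := Nat.mod_lt q (show b > 0 by omega)
    rw [h] at h1
    omega

theorem dim {ε : ℝ} (hε : 0 < ε) (hε1 : ε ≤ 1) {m : ℕ} (hm : 1 ≤ m) :
    ∃ k b₀ : ℕ, 1 ≤ k ∧ ∀ b : ℕ, b₀ ≤ b → 2 ≤ b ∧ ∀ L : ℕ, (L : ℝ) ≤ (b : ℝ) ^ (1 + ε / 8) →
      ∀ lab : ℕ → ℕ → ℤ, (∀ i q, |lab i q| ≤ L) → Thin k m b lab →
      ∀ R B : Set ℝ, (∀ r ∈ R, 0 ≤ r ∧ r < 1) →
        (∀ r ∈ R, ∀ j : ℕ, j < k → first b lab r + j * r ∈ B) →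
        ∀ δ : ℝ, 0 < δ → δ < 1 → ∀ S : Finset (Set ℝ), Cov B δ S →
          ∃ S' : Finset (Set ℝ), Cov R δ S' ∧
            (S'.card : ℝ) ≤ b * (2 * (2 * (L + k) + 1) + 1) * δ ^ (-ε) * S.card := by
  classical
  obtain ⟨k, hk1, hk⟩ := exists_enough (ε / 4) m
  obtain ⟨b₁, hb₁⟩ := exists_nat_ge (((2 * k + 3 : ℕ) : ℝ) ^ (8 / ε))
  refine ⟨k, max 2 b₁, hk1, fun b hb => ⟨(le_max_left _ _).trans hb, ?_⟩⟩
  have hb2 : 2 ≤ b := (le_max_left _ _).trans hb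
  intro L hL lab hlab hT R B hR hB δ hδ hδ1 S hS
  have hbr : (2 : ℝ) ≤ b := by exact_mod_cast hb2
  have hb0 : (0 : ℝ) < b := by linarith
  have hk3 : ((2 * k + 3 : ℕ) : ℝ) ≤ (b : ℝ) ^ (ε / 8) := by
    have h1 : ((2 * k + 3 : ℕ) : ℝ) ^ (8 / ε) ≤ b :=
      hb₁.trans (by exact_mod_cast (le_max_right _ _).trans hb)
    have h2 := Real.rpow_le_rpow (by positivity) h1 (show 0 ≤ ε / 8 by positivity)
    rw [← Real.rpow_mul (by positivity), show 8 / ε * (ε / 8) = 1 by field_simp, Real.rpow_one] at h2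
    exact h2
  -- the loss from the carries
  obtain ⟨K, hKdef⟩ : ∃ K : ℕ, K = 2 * (L + k * b) / b + 1 := ⟨_, rfl⟩
  have hK : (K : ℝ) ≤ (b : ℝ) ^ (ε / 4) := by
    have h1 : ((2 * (L + k * b) / b : ℕ) : ℝ) ≤ (2 * (L + k * b) : ℕ) / (b : ℝ) := Nat.cast_div_le
    have h2 : ((2 * (L + k * b) : ℕ) : ℝ) / b = 2 * (L / b) + 2 * k := by
      push_cast
      field_simp
    have h3 : (L : ℝ) / b ≤ (b : ℝ) ^ (ε / 8) := by
      rw [div_le_iff₀ hb0]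
      refine hL.trans (le_of_eq ?_)
      rw [Real.rpow_add hb0, Real.rpow_one, mul_comm]
    have h4 : (1 : ℝ) ≤ (b : ℝ) ^ (ε / 8) := Real.one_le_rpow (by linarith) (by positivity)
    have h5 : (b : ℝ) ^ (ε / 4) = (b : ℝ) ^ (ε / 8) * (b : ℝ) ^ (ε / 8) := by
      rw [← Real.rpow_add hb0]; congr 1; ring
    rw [hKdef, h5]
    push_cast at h1 hk3 ⊢
    have h6 : 2 * (b : ℝ) ^ (ε / 8) + 2 * k + 1 ≤ (2 * k + 3) * (b : ℝ) ^ (ε / 8) := by
      have : (0 : ℝ) ≤ k := Nat.cast_nonneg _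
      nlinarith
    have h7 : (2 * (k : ℝ) + 3) * (b : ℝ) ^ (ε / 8) ≤ (b : ℝ) ^ (ε / 8) * (b : ℝ) ^ (ε / 8) :=
      mul_le_mul_of_nonneg_right hk3 (by positivity)
    push_cast at h2
    linarith
  -- the level
  obtain ⟨n, hn1, hn2⟩ := exists_nat_pow_near (x := 1 / δ) (y := (b : ℝ))
    (by rw [le_div_iff₀ hδ]; linarith) (by linarith)
  have hbn : (0 : ℝ) < (b : ℝ) ^ n := by positivity
  have hδn : δ ≤ 1 / (b : ℝ) ^ n := by
    rw [le_div_iff₀ hbn]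
    rw [le_div_iff₀ hδ] at hn1
    linarith
  have hS' : Cov B (1 / (b : ℝ) ^ n) S := ⟨fun Y hY x hx y hy => (hS.1 Y hY x hx y hy).trans hδn, hS.2⟩
  have h1 := scale (by positivity : 0 < ε / 4) (by linarith) hm hb2 hk hlab hT hR hB hS'
    (Q := cel b n R) (fun q hq => (mem_filter.1 hq).2)
  rw [← hKdef] at h1
  obtain ⟨D, hD⟩ : ∃ D : ℕ, D = 2 * (2 * (L + k) + 1) + 1 := ⟨_, rfl⟩
  rw [← hD] at h1
  obtain ⟨y, hy⟩ : ∃ y : ℝ, y = ((K ^ n * D * S.card : ℕ) : ℝ) := ⟨_, rfl⟩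
  have hy0 : 0 ≤ y := by rw [hy]; exact Nat.cast_nonneg _
  rw [← hy] at h1
  have hx : ((cel b n R).card : ℝ) ≤ (b : ℝ) ^ n := by
    have : (cel b n R).card ≤ b ^ n := (card_filter_le _ _).trans (by simp)
    exact_mod_cast this
  have hone : 1 ≤ ((b : ℝ) ^ n) ^ (ε / 4) := by
    apply Real.one_le_rpow _ (by positivity)
    exact one_le_pow₀ (by linarith)
  have h2 : ((cel b n R).card : ℝ) ≤ y * ((b : ℝ) ^ n) ^ (ε / 4) := by
    rcases le_total y ((b : ℝ) ^ n) with h | h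
    · refine h1.trans ?_
      rw [Real.rpow_add' hy0 (by positivity), Real.rpow_one]
      exact mul_le_mul_of_nonneg_left (Real.rpow_le_rpow hy0 h (by positivity)) hy0
    · calc ((cel b n R).card : ℝ) ≤ y * 1 := by linarith
        _ ≤ y * ((b : ℝ) ^ n) ^ (ε / 4) := mul_le_mul_of_nonneg_left hone hy0
  have h3 : y ≤ ((b : ℝ) ^ n) ^ (ε / 4) * (D * S.card) := by
    rw [hy]
    push_cast
    rw [mul_assoc]
    refine mul_le_mul_of_nonneg_right ?_ (by positivity)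
    have := pow_le_pow_left₀ (Nat.cast_nonneg K) hK n
    refine this.trans (le_of_eq ?_)
    rw [← Real.rpow_natCast, ← Real.rpow_natCast, ← Real.rpow_mul hb0.le, ← Real.rpow_mul hb0.le,
      mul_comm]
  have h4 : ((cel b n R).card : ℝ) ≤ D * δ ^ (-ε) * S.card := by
    have a1 : y * ((b : ℝ) ^ n) ^ (ε / 4) ≤
        ((b : ℝ) ^ n) ^ (ε / 4) * (D * S.card) * ((b : ℝ) ^ n) ^ (ε / 4) :=
      mul_le_mul_of_nonneg_right h3 (by positivity)
    have a2 : ((b : ℝ) ^ n) ^ (ε / 4) * ((b : ℝ) ^ n) ^ (ε / 4) ≤ δ ^ (-ε) := by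
      rw [← Real.rpow_add hbn]
      have a3 : ((b : ℝ) ^ n) ^ (ε / 4 + ε / 4) ≤ ((b : ℝ) ^ n) ^ ε :=
        Real.rpow_le_rpow_of_exponent_le (one_le_pow₀ (by linarith)) (by linarith)
      refine a3.trans ?_
      rw [Real.rpow_neg hδ.le, ← Real.inv_rpow hδ.le]
      refine Real.rpow_le_rpow hbn.le ?_ hε.le
      rw [one_div] at hn1
      exact hn1
    calc ((cel b n R).card : ℝ) ≤ _ := h2.trans a1
      _ = (((b : ℝ) ^ n) ^ (ε / 4) * ((b : ℝ) ^ n) ^ (ε / 4)) * (D * S.card) := by ring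
      _ ≤ δ ^ (-ε) * (D * S.card) := mul_le_mul_of_nonneg_right a2 (by positivity)
      _ = _ := by ring
  -- the cover
  obtain ⟨I, hI⟩ : ∃ I : ℕ → Set ℝ, I = fun q => {x | 0 ≤ x ∧ ⌊(b : ℝ) ^ (n + 1) * x⌋₊ = q} :=
    ⟨_, rfl⟩
  have hbn1 : (0 : ℝ) < (b : ℝ) ^ (n + 1) := by positivity
  refine ⟨(cel b (n + 1) R).image I, ⟨?_, ?_⟩, ?_⟩
  · intro Y hY x hx y hy
    obtain ⟨q, -, rfl⟩ := mem_image.1 hY
    rw [hI] at hx hy
    obtain ⟨hx0, hxq⟩ := hx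
    obtain ⟨hy0, hyq⟩ := hy
    have c1 := Nat.floor_le (by positivity : 0 ≤ (b : ℝ) ^ (n + 1) * x)
    have c2 := Nat.lt_floor_add_one ((b : ℝ) ^ (n + 1) * x)
    have c3 := Nat.floor_le (by positivity : 0 ≤ (b : ℝ) ^ (n + 1) * y)
    have c4 := Nat.lt_floor_add_one ((b : ℝ) ^ (n + 1) * y)
    rw [hxq] at c1 c2
    rw [hyq] at c3 c4
    have c5 : |(b : ℝ) ^ (n + 1) * (x - y)| ≤ 1 := by
      rw [mul_sub, abs_le]
      constructor <;> linarith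
    rw [abs_mul, abs_of_pos hbn1] at c5
    have c6 : 1 ≤ (b : ℝ) ^ (n + 1) * δ := by
      rw [div_lt_iff₀ hδ] at hn2
      exact hn2.le
    by_contra hcon
    have := mul_lt_mul_of_pos_left (not_le.1 hcon) hbn1
    linarith
  · intro x hx
    obtain ⟨hx0, hx1⟩ := hR x hx
    refine ⟨I ⌊(b : ℝ) ^ (n + 1) * x⌋₊, mem_image_of_mem _ ?_, ?_⟩
    · exact mem_filter.2 ⟨mem_range.2 (floor_lt hb2 hx0 hx1 _), x, hx, rfl⟩
    · rw [hI]
      exact ⟨hx0, rfl⟩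
  · have d1 : (((cel b (n + 1) R).image I).card : ℝ) ≤ b * (cel b n R).card := by
      exact_mod_cast card_image_le.trans (cel_succ hb2 n hR)
    have d2 : (D : ℝ) = 2 * (2 * (L + k) + 1) + 1 := by rw [hD]; push_cast; rfl
    rw [← d2]
    calc (((cel b (n + 1) R).image I).card : ℝ) ≤ b * (cel b n R).card := d1
      _ ≤ b * (D * δ ^ (-ε) * S.card) := mul_le_mul_of_nonneg_left h4 hb0.le
      _ = _ := by ring

/-- sets of positive outer measure -/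
theorem of_cover {ε C : ℝ} (hC : 0 < C) {R B : Set ℝ} (hR : ∀ r ∈ R, 0 ≤ r ∧ r < 1)
    (hpos : volume R ≠ 0)
    (h : ∀ δ : ℝ, 0 < δ → δ < 1 → ∀ S : Finset (Set ℝ), Cov B δ S →
          ∃ S' : Finset (Set ℝ), Cov R δ S' ∧ (S'.card : ℝ) ≤ C * δ ^ (-ε) * S.card) :
    ∃ c : ℝ, 0 < c ∧ ∀ δ : ℝ, 0 < δ → δ < 1 → ∀ S : Finset (Set ℝ), Cov B δ S →
      c * δ ^ (-(1 - ε)) ≤ S.card := by
  have hfin : volume R ≠ ⊤ := by
    have h1 : R ⊆ Set.Icc 0 1 := fun r hr => ⟨(hR r hr).1, (hR r hr).2.le⟩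
    exact ((measure_mono h1).trans_lt (by simp)).ne
  have hv : 0 < (volume R).toReal := ENNReal.toReal_pos hpos hfin
  refine ⟨(volume R).toReal / C, by positivity, fun δ hδ hδ1 S hS => ?_⟩
  obtain ⟨S', hS', hcard⟩ := h δ hδ hδ1 S hS
  have h1 : volume R ≤ ENNReal.ofReal (S'.card * δ) := by
    have h2 : R ⊆ ⋃ Y ∈ S', Y := fun x hx => by
      obtain ⟨Y, hY, hxY⟩ := hS'.2 x hx
      exact Set.mem_biUnion hY hxY
    refine (measure_mono h2).trans ((measure_biUnion_finset_le _ _).trans ?_)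
    refine (Finset.sum_le_card_nsmul _ _ (ENNReal.ofReal δ) fun Y hY => ?_).trans ?_
    · refine (Real.volume_le_diam Y).trans ?_
      refine Metric.ediam_le fun x hx y hy => ?_
      rw [edist_dist, Real.dist_eq]
      exact ENNReal.ofReal_le_ofReal (hS'.1 Y hY x hx y hy)
    · rw [nsmul_eq_mul, ENNReal.ofReal_mul (Nat.cast_nonneg _), ENNReal.ofReal_natCast]
  have h2 : (volume R).toReal ≤ S'.card * δ := by
    have := ENNReal.toReal_mono ENNReal.ofReal_ne_top h1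
    rwa [ENNReal.toReal_ofReal (by positivity)] at this
  have h3 : (volume R).toReal ≤ C * δ ^ (-ε) * S.card * δ :=
    h2.trans (mul_le_mul_of_nonneg_right hcard hδ.le)
  have h4 : δ ^ (-ε) * δ = (δ ^ (-(1 - ε)))⁻¹ := by
    rw [← Real.rpow_neg hδ.le, neg_neg]
    nth_rewrite 2 [← Real.rpow_one δ]
    rw [← Real.rpow_add hδ]
    congr 1
    ring
  have h5 : 0 < δ ^ (-(1 - ε)) := by positivity
  rw [div_mul_eq_mul_div, div_le_iff₀ hC]
  have h6 : C * δ ^ (-ε) * S.card * δ = C * S.card * (δ ^ (-(1 - ε)))⁻¹ := by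
    rw [← h4]; ring
  rw [h6] at h3
  have h7 := mul_le_mul_of_nonneg_right h3 h5.le
  rw [mul_assoc, inv_mul_cancel₀ h5.ne', mul_one] at h7
  linarith

end Pool.Agent.U685.KT
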