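import Mathlib
import Pool.Agent.U685.KT.Dim

/-!
Labels that are values of polynomials modulo a prime.
-/

set_option autoImplicit false

namespace Pool.Agent.U685.KT

open Finset Pool.Agent.U685.LM MeasureTheory Polynomial

lemma polyLab_le {b p : ℕ} [Fact p.Prime] (f : ℕ → ℕ → (ZMod p)[X]) (i q : ℕ) :
    |polyLab b p f i q| ≤ p := by
  unfold polyLab
  rw [abs_of_nonneg (Nat.cast_nonneg _)]
  exact_mod_cast (ZMod.val_lt _).le

lemma polyLab_thin {b p m : ℕ} [Fact p.Prime] (hb : 0 < b) (hbp : b ≤ p)
    {f : ℕ → ℕ → (ZMod p)[X]} (hf : ∀ i q, 2 ≤ (f i q).natDegree ∧ (f i q).natDegree ≤ m) (k : ℕ) :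
    Thin k m b (polyLab b p f) := by
  classical
  intro i w j u _
  obtain ⟨g, hg⟩ : ∃ g : (ZMod p)[X], g = f i w + (C (j : ZMod p) * X - C (u : ZMod p)) := ⟨_, rfl⟩
  have hlow : (C (j : ZMod p) * X - C (u : ZMod p) : (ZMod p)[X]).natDegree < (f i w).natDegree := by
    refine lt_of_le_of_lt (b := 1) ?_ (by have := (hf i w).1; omega)
    refine (natDegree_sub_le _ _).trans ?_
    rw [natDegree_C]
    exact max_le ((natDegree_C_mul_le _ _).trans natDegree_X_le) (by omega)
  have hdeg : g.natDegree = (f i w).natDegree := by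
    rw [hg]
    exact natDegree_add_eq_left_of_natDegree_lt hlow
  have hg0 : g ≠ 0 := by
    intro h
    rw [h, natDegree_zero] at hdeg
    have := (hf i w).1
    omega
  have h1 : ((range b).filter fun d => polyLab b p f i (b * w + d) + (j : ℤ) * (d : ℤ) = u).card ≤
      g.roots.toFinset.card := by
    apply card_le_card_of_injOn (fun d : ℕ => (d : ZMod p))
    · intro d hd
      obtain ⟨hd1, hd2⟩ := mem_filter.1 (mem_coe.1 hd)
      have hd1 := mem_range.1 hd1
      have e1 : (b * w + d) / b = w := by
        rw [Nat.mul_add_div hb, Nat.div_eq_of_lt hd1, add_zero]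
      have e2 : (b * w + d) % b = d := by
        rw [Nat.mul_add_mod, Nat.mod_eq_of_lt hd1]
      unfold polyLab at hd2
      rw [e1, e2] at hd2
      have h2 := congrArg (fun x : ℤ => (x : ZMod p)) hd2
      simp only [Int.cast_add, Int.cast_natCast, Int.cast_mul, ZMod.natCast_zmod_val] at h2
      rw [mem_coe, Multiset.mem_toFinset, mem_roots hg0, IsRoot.def, hg]
      simp only [eval_add, eval_sub, eval_mul, eval_C, eval_X]
      rw [← h2]
      ring
    · intro d hd d' hd' h
      have hd1 := mem_range.1 (mem_filter.1 (mem_coe.1 hd)).1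
      have hd2 := mem_range.1 (mem_filter.1 (mem_coe.1 hd')).1
      have h3 := congrArg ZMod.val h
      simp only at h3
      rwa [ZMod.val_natCast_of_lt (by omega), ZMod.val_natCast_of_lt (by omega)] at h3
  refine h1.trans ((Multiset.toFinset_card_le _).trans ((card_roots' g).trans ?_))
  rw [hdeg]
  exact (hf i w).2

end Pool.Agent.U685.KT
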